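import Pool.Agent.H61.HB.Stmts4

set_option autoImplicit false

namespace HB

private theorem abl_summable (hBIL : BILStmt) (u : V) (f : Z2 → ℂ) (hu : Mem 2 u) (hf : MemS 2 f)
    (k : Z2) : Summable fun l => trm u f k l := by
  obtain ⟨C, -, hC⟩ := hBIL 2 le_rfl
  exact ((hC u f hu hf).1 k).of_norm

private theorem abl_add_left (u v : V) (f : Z2 → ℂ) (k l : Z2) :
    trm (u + v) f k l = trm u f k l + trm v f k l := by
  unfold trm
  rw [← Finset.sum_add_distrib]
  refine Finset.sum_congr rfl fun i _ => ?_
  simp only [Pi.add_apply]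
  ring

private theorem abl_add_right (w : V) (f g : Z2 → ℂ) (k l : Z2) :
    trm w (f + g) k l = trm w f k l + trm w g k l := by
  unfold trm
  rw [← Finset.sum_add_distrib]
  refine Finset.sum_congr rfl fun i _ => ?_
  simp only [Pi.add_apply]
  ring

private theorem abl_smul_left (c : ℂ) (u : V) (f : Z2 → ℂ) (k l : Z2) :
    trm (fun j k => c * u j k) f k l = c * trm u f k l := by
  unfold trm
  rw [Finset.mul_sum]
  refine Finset.sum_congr rfl fun i _ => ?_
  ring

private theorem abl_smul_right (c : ℂ) (w : V) (f : Z2 → ℂ) (k l : Z2) :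
    trm w (fun k => c * f k) k l = c * trm w f k l := by
  unfold trm
  rw [Finset.mul_sum]
  refine Finset.sum_congr rfl fun i _ => ?_
  ring

theorem abl_thm (hBIL : BILStmt) : ABLStmt := by
  intro u v w hu hv hw
  refine ⟨?_, ?_, ?_, ?_⟩
  · funext j k
    show (∑' l : Z2, trm (u + v) (w j) k l) =
      (∑' l : Z2, trm u (w j) k l) + ∑' l : Z2, trm v (w j) k l
    rw [← (abl_summable hBIL u (w j) hu (hw j) k).tsum_add
      (abl_summable hBIL v (w j) hv (hw j) k)]
    exact tsum_congr fun l => abl_add_left u v (w j) k l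
  · funext j k
    show (∑' l : Z2, trm w (u j + v j) k l) =
      (∑' l : Z2, trm w (u j) k l) + ∑' l : Z2, trm w (v j) k l
    rw [← (abl_summable hBIL w (u j) hw (hu j) k).tsum_add
      (abl_summable hBIL w (v j) hw (hv j) k)]
    exact tsum_congr fun l => abl_add_right w (u j) (v j) k l
  · intro c
    funext j k
    show (∑' l : Z2, trm (fun j k => c * u j k) (w j) k l) = c * ∑' l : Z2, trm u (w j) k l
    rw [← tsum_mul_left]
    exact tsum_congr fun l => abl_smul_left c u (w j) k l
  · intro c
    funext j k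
    show (∑' l : Z2, trm w (fun k => c * u j k) k l) = c * ∑' l : Z2, trm w (u j) k l
    rw [← tsum_mul_left]
    exact tsum_congr fun l => abl_smul_right c w (u j) k l

end HB
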