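import Pool.Agent.H61.HB.Stmts

set_option autoImplicit false

namespace HB

namespace CONaux

lemma sq_nonneg' (k : Z2) : 0 ≤ sq k := by unfold sq; positivity

lemma w_pos (s : ℝ) (k : Z2) : 0 < (1 + sq k) ^ s :=
  Real.rpow_pos_of_pos (by linarith [sq_nonneg' k]) s

lemma real_ineq1 (a b d δ : ℝ) (hδ : 0 < δ) (ha : 0 ≤ a) (hb : 0 ≤ b)
    (hd : 0 ≤ d) (h : a ≤ b + d) :
    a ^ 2 ≤ b ^ 2 + ((1 + 1 / δ) * d ^ 2 + δ * b ^ 2) := by
  have h1 : a ^ 2 ≤ (b + d) ^ 2 := by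
    apply pow_le_pow_left₀ ha h
  have h2 : 0 ≤ (δ * b - d) ^ 2 := sq_nonneg _
  have h3 : 2 * b * d ≤ δ * b ^ 2 + (1 / δ) * d ^ 2 := by
    have : δ * b ^ 2 + (1 / δ) * d ^ 2 - 2 * b * d = (δ * b - d) ^ 2 / δ := by
      field_simp
      ring
    have h4 : 0 ≤ (δ * b - d) ^ 2 / δ := by positivity
    linarith
  nlinarith

lemma real_ineq2 (a b d δ : ℝ) (hδ : 0 < δ) (ha : 0 ≤ a) (hb : 0 ≤ b)
    (hd : 0 ≤ d) (h : b ≤ a + d) :
    b ^ 2 ≤ a ^ 2 + ((1 + 1 / δ) * d ^ 2 + δ * b ^ 2) := by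
  have h3 : 2 * b * d ≤ δ * b ^ 2 + (1 / δ) * d ^ 2 := by
    have : δ * b ^ 2 + (1 / δ) * d ^ 2 - 2 * b * d = (δ * b - d) ^ 2 / δ := by
      field_simp
      ring
    have h4 : 0 ≤ (δ * b - d) ^ 2 / δ := by positivity
    linarith
  have hd2 : 0 ≤ d ^ 2 := sq_nonneg d
  by_cases hab : b ≤ a
  · have : b ^ 2 ≤ a ^ 2 := pow_le_pow_left₀ hb hab 2
    have h5 : 0 ≤ (1 + 1 / δ) * d ^ 2 + δ * b ^ 2 := by positivity
    linarith
  · push Not at hab
    have h6 : (b - a) * (b + a) ≤ d * (2 * b) := by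
      apply mul_le_mul (by linarith) (by linarith) (by linarith) hd
    nlinarith

lemma scal (hM : MMBStmt) (s : ℝ) (f g : Z2 → ℂ) (hf : MemS s f) (hg : MemS s g)
    (δ : ℝ) (hδ : 0 < δ) :
    |nqS s f - nqS s g| ≤ (1 + 1 / δ) * nqS s (f - g) + δ * nqS s g := by
  have hfg : MemS s (f - g) := (hM.2.2.1 s f g hf hg).1
  have hR : Summable fun k => (1 + 1 / δ) * ((1 + sq k) ^ s * ‖(f - g) k‖ ^ 2)
      + δ * ((1 + sq k) ^ s * ‖g k‖ ^ 2) := (hfg.mul_left _).add (hg.mul_left _)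
  have hRs : (∑' k, ((1 + 1 / δ) * ((1 + sq k) ^ s * ‖(f - g) k‖ ^ 2)
      + δ * ((1 + sq k) ^ s * ‖g k‖ ^ 2))) = (1 + 1 / δ) * nqS s (f - g) + δ * nqS s g := by
    rw [(hfg.mul_left _).tsum_add (hg.mul_left _), tsum_mul_left, tsum_mul_left]
    rfl
  have e1 : nqS s f ≤ nqS s g + ((1 + 1 / δ) * nqS s (f - g) + δ * nqS s g) := by
    rw [← hRs]
    unfold nqS
    rw [← Summable.tsum_add hg hR]
    refine Summable.tsum_le_tsum (fun k => ?_) hf (hg.add hR)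
    have hw := w_pos s k
    have h1 : ‖f k‖ ≤ ‖g k‖ + ‖(f - g) k‖ := by
      have : f k = g k + (f - g) k := by simp
      calc ‖f k‖ = ‖g k + (f - g) k‖ := by rw [← this]
        _ ≤ _ := norm_add_le _ _
    have h2 := real_ineq1 ‖f k‖ ‖g k‖ ‖(f - g) k‖ δ hδ (norm_nonneg _) (norm_nonneg _)
      (norm_nonneg _) h1
    have h3 := mul_le_mul_of_nonneg_left h2 hw.le
    linarith
  have e2 : nqS s g ≤ nqS s f + ((1 + 1 / δ) * nqS s (f - g) + δ * nqS s g) := by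
    rw [← hRs]
    unfold nqS
    rw [← Summable.tsum_add hf hR]
    refine Summable.tsum_le_tsum (fun k => ?_) hg (hf.add hR)
    have hw := w_pos s k
    have h1 : ‖g k‖ ≤ ‖f k‖ + ‖(f - g) k‖ := by
      have : g k = f k - (f - g) k := by simp
      calc ‖g k‖ = ‖f k - (f - g) k‖ := by rw [← this]
        _ ≤ _ := norm_sub_le _ _
    have h2 := real_ineq2 ‖f k‖ ‖g k‖ ‖(f - g) k‖ δ hδ (norm_nonneg _) (norm_nonneg _)
      (norm_nonneg _) h1
    have h3 := mul_le_mul_of_nonneg_left h2 hw.le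
    linarith
  rw [abs_le]
  constructor <;> linarith

lemma vec (hM : MMBStmt) (s : ℝ) (f g : V) (hf : Mem s f) (hg : Mem s g)
    (δ : ℝ) (hδ : 0 < δ) :
    |nsq s f - nsq s g| ≤ (1 + 1 / δ) * nsq s (f - g) + δ * nsq s g := by
  unfold nsq
  rw [← Finset.sum_sub_distrib, Finset.mul_sum, Finset.mul_sum, ← Finset.sum_add_distrib]
  refine (Finset.abs_sum_le_sum_abs _ _).trans ?_
  refine Finset.sum_le_sum fun j _ => ?_
  exact scal hM s (f j) (g j) (hf j) (hg j) δ hδ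

lemma coef (hM : MMBStmt) (s : ℝ) (f g : V) (hf : Mem s f) (hg : Mem s g) (j : Fin 2) (k : Z2) :
    ‖f j k - g j k‖ ^ 2 ≤ ((1 + sq k) ^ s)⁻¹ * nsq s (f - g) := by
  have hfg : MemS s (f j - g j) := (hM.2.2.1 s (f j) (g j) (hf j) (hg j)).1
  have hw := w_pos s k
  have h1 : (1 + sq k) ^ s * ‖(f j - g j) k‖ ^ 2 ≤ nqS s (f j - g j) := by
    unfold nqS
    refine hfg.le_tsum k (fun i _ => ?_)
    have := w_pos s i
    positivity
  have h2 : nqS s (f j - g j) ≤ nsq s (f - g) := by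
    unfold nsq
    refine Finset.single_le_sum (f := fun j => nqS s ((f - g) j)) (fun i _ => ?_)
      (Finset.mem_univ j)
    exact hM.1 s _
  have h3 : (1 + sq k) ^ s * ‖f j k - g j k‖ ^ 2 ≤ nsq s (f - g) := h1.trans h2
  rw [← div_eq_inv_mul, le_div_iff₀ hw]
  linarith

end CONaux

open CONaux in
theorem con_thm (hM : MMBStmt) : CONStmt := by
  intro s T G hG
  obtain ⟨hmem, hlim⟩ := hG
  refine ⟨fun j k t ht => ?_, fun t ht => ?_⟩
  · rw [ContinuousWithinAt, tendsto_iff_norm_sub_tendsto_zero]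
    have h1 : Filter.Tendsto (fun r => Real.sqrt (((1 + sq k) ^ s)⁻¹ * nsq s (G r - G t)))
        (nhdsWithin t (Set.Icc 0 T)) (nhds 0) := by
      have := ((hlim t ht).const_mul (((1 + sq k) ^ s)⁻¹)).sqrt
      simpa using this
    refine squeeze_zero' (Filter.Eventually.of_forall fun r => norm_nonneg _) ?_ h1
    filter_upwards [self_mem_nhdsWithin] with r hr
    apply Real.le_sqrt_of_sq_le
    exact coef hM s (G r) (G t) (hmem r hr) (hmem t ht) j k
  · rw [ContinuousWithinAt, Metric.tendsto_nhds]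
    intro e he
    set B := nsq s (G t) with hB
    have hB0 : 0 ≤ B := hM.2.2.2.1 s _
    set δ := e / (2 * (B + 1)) with hδd
    have hδ : 0 < δ := by positivity
    have hc : 0 < 1 + 1 / δ := by positivity
    have h1 := (hlim t ht).const_mul (1 + 1 / δ)
    rw [mul_zero] at h1
    have h2 : ∀ᶠ r in nhdsWithin t (Set.Icc 0 T), (1 + 1 / δ) * nsq s (G r - G t) < e / 2 :=
      h1.eventually_lt_const (by positivity)
    filter_upwards [self_mem_nhdsWithin, h2] with r hr hr2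
    rw [Real.dist_eq]
    have h3 := vec hM s (G r) (G t) (hmem r hr) (hmem t ht) δ hδ
    have h4 : δ * B < e / 2 := by
      rw [hδd, div_mul_eq_mul_div, div_lt_div_iff₀ (by positivity) (by positivity)]
      nlinarith
    rw [← hB] at h3
    linarith

end HB
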